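import Mathlib

/-!
The `L¹` inequality: Lagrange interpolation at the two points of `y + ℤ` in `[-1, 1]`.
-/

set_option autoImplicit false

namespace Pool.Agent.L5helper93.FU

open MeasureTheory Filter Topology Set
open scoped ENNReal

theorem two_le {a : ℤ → ℂ} (h : Summable a) (h0 : ∑' m, a m = 0) (k : ℤ) :
    2 * ‖a k‖ ≤ ∑' m, ‖a m‖ := by
  have h1 := h.tsum_eq_add_tsum_ite k
  have h2 := h.norm.tsum_eq_add_tsum_ite k
  have hb : ∀ m, ‖(if m = k then (0 : ℂ) else a m)‖ = if m = k then (0 : ℝ) else ‖a m‖ := by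
    intro m
    split_ifs <;> simp
  have hs : Summable (fun m => ‖(if m = k then (0 : ℂ) else a m)‖) := by
    refine Summable.of_nonneg_of_le (fun m => norm_nonneg _) (fun m => ?_) h.norm
    rw [hb]
    split_ifs
    · exact norm_nonneg _
    · exact le_rfl
  have h3 := norm_tsum_le_tsum_norm hs
  simp only [hb] at h3
  rw [h0] at h1
  have h4 : ‖a k‖ = ‖∑' m, if m = k then (0 : ℂ) else a m‖ := by
    rw [← norm_neg (a k)]
    congr 1
    linear_combination h1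
  rw [h2]
  linarith

theorem abs_comb {y : ℝ} (hy0 : 0 ≤ y) (hy1 : y ≤ 1) (m : ℤ) :
    y * |(m : ℝ) + 1| + (1 - y) * |(m : ℝ)| = |y + m| := by
  rcases le_or_gt 0 m with hm | hm
  · have h : (0 : ℝ) ≤ m := by exact_mod_cast hm
    rw [abs_of_nonneg (by linarith), abs_of_nonneg h, abs_of_nonneg (by linarith)]
    ring
  · have h : (m : ℝ) ≤ -1 := by exact_mod_cast (by omega : m ≤ -1)
    rw [abs_of_nonpos (by linarith), abs_of_nonpos (by linarith), abs_of_nonpos (by linarith)]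
    ring

theorem lagr {Ψ : ℝ → ℂ} {y : ℝ} (hy0 : 0 ≤ y) (hy1 : y ≤ 1)
    (s0 : Summable fun m : ℤ => Ψ (y + m)) (z0 : ∑' m : ℤ, Ψ (y + m) = 0)
    (s1 : Summable fun m : ℤ => ((y + m : ℝ) : ℂ) * Ψ (y + m))
    (z1 : ∑' m : ℤ, ((y + m : ℝ) : ℂ) * Ψ (y + m) = 0) :
    Summable (fun m : ℤ => |y + m| * ‖Ψ (y + m)‖) ∧
    2 * (|y| * ‖Ψ y‖ + |y - 1| * ‖Ψ (y - 1)‖) ≤ ∑' m : ℤ, |y + m| * ‖Ψ (y + m)‖ := by
  have e1 : ∀ m : ℤ, ((m : ℂ) + 1) * Ψ (y + m) =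
      ((y + m : ℝ) : ℂ) * Ψ (y + m) + (1 - y) * Ψ (y + m) := by
    intro m; push_cast; ring
  have e2 : ∀ m : ℤ, (m : ℂ) * Ψ (y + m) =
      ((y + m : ℝ) : ℂ) * Ψ (y + m) + (-y) * Ψ (y + m) := by
    intro m; push_cast; ring
  have t1 : Summable fun m : ℤ => ((m : ℂ) + 1) * Ψ (y + m) := by
    simp only [e1]
    exact s1.add (s0.mul_left _)
  have t2 : Summable fun m : ℤ => (m : ℂ) * Ψ (y + m) := by
    simp only [e2]
    exact s1.add (s0.mul_left _)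
  have u1 : ∑' m : ℤ, ((m : ℂ) + 1) * Ψ (y + m) = 0 := by
    simp only [e1]
    rw [s1.tsum_add (s0.mul_left _), tsum_mul_left, z0, z1]
    simp
  have u2 : ∑' m : ℤ, (m : ℂ) * Ψ (y + m) = 0 := by
    simp only [e2]
    rw [s1.tsum_add (s0.mul_left _), tsum_mul_left, z0, z1]
    simp
  have v1 := two_le t1 u1 0
  have v2 := two_le t2 u2 (-1)
  simp only [Int.cast_zero, zero_add, one_mul, add_zero] at v1
  have hm1 : y + ((-1 : ℤ) : ℝ) = y - 1 := by push_cast; ring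
  rw [hm1] at v2
  have hn : ‖(((-1 : ℤ) : ℂ)) * Ψ (y - 1)‖ = ‖Ψ (y - 1)‖ := by simp
  rw [hn] at v2
  have n1 : ∀ m : ℤ, ‖((m : ℂ) + 1) * Ψ (y + m)‖ = |(m : ℝ) + 1| * ‖Ψ (y + m)‖ := by
    intro m
    rw [norm_mul]
    congr 1
    have : ((m : ℂ) + 1) = (((m : ℝ) + 1 : ℝ) : ℂ) := by push_cast; rfl
    rw [this, Complex.norm_real, Real.norm_eq_abs]
  have n2 : ∀ m : ℤ, ‖(m : ℂ) * Ψ (y + m)‖ = |(m : ℝ)| * ‖Ψ (y + m)‖ := by
    intro m
    rw [norm_mul]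
    congr 1
    have : (m : ℂ) = ((m : ℝ) : ℂ) := by push_cast; rfl
    rw [this, Complex.norm_real, Real.norm_eq_abs]
  simp only [n1] at v1
  simp only [n2] at v2
  have q1 : Summable fun m : ℤ => |(m : ℝ) + 1| * ‖Ψ (y + m)‖ := by
    have := t1.norm
    simpa only [n1] using this
  have q2 : Summable fun m : ℤ => |(m : ℝ)| * ‖Ψ (y + m)‖ := by
    have := t2.norm
    simpa only [n2] using this
  have key : ∀ m : ℤ, |y + m| * ‖Ψ (y + m)‖ =
      y * (|(m : ℝ) + 1| * ‖Ψ (y + m)‖) + (1 - y) * (|(m : ℝ)| * ‖Ψ (y + m)‖) := by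
    intro m
    rw [← abs_comb hy0 hy1 m]
    ring
  refine ⟨?_, ?_⟩
  · simp only [key]
    exact (q1.mul_left _).add (q2.mul_left _)
  · simp only [key]
    rw [(q1.mul_left _).tsum_add (q2.mul_left _), tsum_mul_left, tsum_mul_left,
      abs_of_nonneg hy0, abs_of_nonpos (by linarith : y - 1 ≤ 0)]
    have w1 := mul_le_mul_of_nonneg_left v1 hy0
    have w2 := mul_le_mul_of_nonneg_left v2 (by linarith : 0 ≤ 1 - y)
    linarith

theorem shift (w : ℝ → ℝ≥0∞) (hw : Measurable w) (c : ℝ) (a b : ℝ) :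
    ∫⁻ y in Ioc a b, w (y + c) = ∫⁻ y in Ioc (a + c) (b + c), w y := by
  have h := (measurePreserving_add_right (volume : Measure ℝ) c).setLIntegral_comp_preimage
    (s := Ioc (a + c) (b + c)) measurableSet_Ioc hw
  rw [← h]
  have : (fun x : ℝ => x + c) ⁻¹' Ioc (a + c) (b + c) = Ioc a b := by
    ext x
    simp
  rw [this]

theorem unfold_sum (w : ℝ → ℝ≥0∞) (hw : Measurable w) :
    ∫⁻ y in Ioc (0 : ℝ) 1, ∑' m : ℤ, w (y + m) = ∫⁻ y, w y := by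
  have h0 : ∫⁻ y in Ioc (0 : ℝ) 1, ∑' m : ℤ, w (y + m) =
      ∑' m : ℤ, ∫⁻ y in Ioc (0 : ℝ) 1, w (y + m) :=
    lintegral_tsum (f := fun (m : ℤ) (y : ℝ) => w (y + m))
      (fun m => (hw.comp (measurable_add_const _)).aemeasurable)
  rw [h0]
  have h1 : ∀ m : ℤ, ∫⁻ y in Ioc (0 : ℝ) 1, w (y + m) = ∫⁻ y in Ioc (m : ℝ) (m + 1), w y := by
    intro m
    rw [shift w hw, zero_add, add_comm (1 : ℝ)]
  simp only [h1]
  rw [← lintegral_iUnion (fun m => measurableSet_Ioc) (pairwise_disjoint_Ioc_intCast ℝ),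
    iUnion_Ioc_intCast, setLIntegral_univ]

/-- half of the integral of `|u| ‖Ψ u‖` is outside `[-1, 1]` -/
theorem half {Ψ : ℝ → ℂ} (hc : Continuous Ψ)
    (s0 : ∀ y : ℝ, Summable fun m : ℤ => Ψ (y + m)) (z0 : ∀ y : ℝ, ∑' m : ℤ, Ψ (y + m) = 0)
    (s1 : ∀ y : ℝ, Summable fun m : ℤ => ((y + m : ℝ) : ℂ) * Ψ (y + m))
    (z1 : ∀ y : ℝ, ∑' m : ℤ, ((y + m : ℝ) : ℂ) * Ψ (y + m) = 0) :
    ∫⁻ u in Ioc (-1 : ℝ) 1, ENNReal.ofReal (|u| * ‖Ψ u‖) ≤
      ∫⁻ u in (Ioc (-1 : ℝ) 1)ᶜ, ENNReal.ofReal (|u| * ‖Ψ u‖) := by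
  set w : ℝ → ℝ≥0∞ := fun u => ENNReal.ofReal (|u| * ‖Ψ u‖) with hw
  have hmeas : Measurable w := by
    rw [hw]
    exact (Continuous.measurable (by fun_prop)).ennreal_ofReal
  have h1 : ∀ y ∈ Ioc (0 : ℝ) 1, 2 * (w y + w (y + (-1))) ≤ ∑' m : ℤ, w (y + m) := by
    intro y hy
    obtain ⟨hs, hle⟩ := lagr hy.1.le hy.2 (s0 y) (z0 y) (s1 y) (z1 y)
    have h2 : ∑' m : ℤ, w (y + m) = ENNReal.ofReal (∑' m : ℤ, |y + m| * ‖Ψ (y + m)‖) := by
      rw [ENNReal.ofReal_tsum_of_nonneg (fun m => by positivity) hs]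
    rw [h2, hw]
    simp only []
    rw [← ENNReal.ofReal_add (by positivity) (by positivity)]
    have h3 : (2 : ℝ≥0∞) = ENNReal.ofReal 2 := by simp
    rw [h3, ← ENNReal.ofReal_mul (by norm_num)]
    apply ENNReal.ofReal_le_ofReal
    rw [← sub_eq_add_neg]
    exact hle
  have h2 : 2 * ∫⁻ u in Ioc (-1 : ℝ) 1, w u ≤ ∫⁻ u, w u := by
    have h3 : ∫⁻ u in Ioc (-1 : ℝ) 1, w u =
        ∫⁻ y in Ioc (0 : ℝ) 1, (w y + w (y + (-1))) := by
      rw [lintegral_add_left hmeas, shift w hmeas, zero_add,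
        show (1 : ℝ) + -1 = 0 by norm_num]
      have h4 : Ioc (-1 : ℝ) 1 = Ioc (-1 : ℝ) 0 ∪ Ioc 0 1 :=
        (Ioc_union_Ioc_eq_Ioc (by norm_num) (by norm_num)).symm
      rw [h4, lintegral_union measurableSet_Ioc (by
        rw [Set.disjoint_left]
        intro x hx hx'
        have := hx.2
        have := hx'.1
        linarith), add_comm]
    rw [h3, ← unfold_sum w hmeas, ← lintegral_const_mul _ (by
      exact hmeas.add (hmeas.comp (measurable_add_const _)))]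
    exact setLIntegral_mono' measurableSet_Ioc h1
  have hfin : ∫⁻ u in Ioc (-1 : ℝ) 1, w u ≠ ∞ := by
    have hcont : Continuous (fun u : ℝ => |u| * ‖Ψ u‖) := by fun_prop
    have hI : IntegrableOn (fun u : ℝ => |u| * ‖Ψ u‖) (Ioc (-1) 1) :=
      (hcont.integrableOn_Icc (a := -1) (b := 1)).mono_set Ioc_subset_Icc_self
    have := hI.lintegral_lt_top
    exact this.ne
  rw [two_mul, ← lintegral_add_compl (μ := volume) w
    (measurableSet_Ioc (a := (-1 : ℝ)) (b := 1))] at h2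
  exact (ENNReal.add_le_add_iff_left hfin).mp h2

end Pool.Agent.L5helper93.FU
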