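import Mathlib

/-!
The function `φ_f (y) = ∫ f(x) exp(i π y |x|²) dx` of a Schwartz function on `ℝ^d` and its
functional equation.
-/

set_option autoImplicit false

namespace Pool.Agent.L5helper93.FU

open MeasureTheory Complex Filter Topology
open scoped FourierTransform SchwartzMap Real

/-- the space `ℝ^d` -/
abbrev E (d : ℕ) : Type := EuclideanSpace ℝ (Fin d)

variable {d : ℕ}

/-- `φ_f (y) = ∫ f(x) exp(i π y |x|²) dx` -/
noncomputable def phi (f : E d → ℂ) (y : ℝ) : ℂ :=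
  ∫ x, f x * cexp (π * I * y * ((‖x‖ ^ 2 : ℝ) : ℂ))

theorem norm_e (y r : ℝ) : ‖cexp (π * I * y * (r : ℂ))‖ = 1 := by
  rw [Complex.norm_exp]
  simp

theorem phi_continuous (f : 𝓢(E d, ℂ)) : Continuous (phi (fun x => f x)) := by
  unfold phi
  refine continuous_of_dominated (bound := fun x => ‖f x‖) ?_ ?_ ?_ ?_
  · intro y
    exact (f.continuous.mul (by fun_prop)).aestronglyMeasurable
  · intro y
    refine Eventually.of_forall fun x => ?_
    rw [norm_mul, norm_e, mul_one]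
  · exact f.integrable.norm
  · refine Eventually.of_forall fun x => ?_
    fun_prop

theorem phi_bound (f : 𝓢(E d, ℂ)) (y : ℝ) : ‖phi (fun x => f x) y‖ ≤ ∫ x, ‖f x‖ := by
  unfold phi
  refine (norm_integral_le_integral_norm _).trans (le_of_eq ?_)
  congr 1
  funext x
  rw [norm_mul, norm_e, mul_one]

/-- the identity of Parseval for Gaussian functions -/
theorem gauss_eq (f : 𝓢(E d, ℂ)) {b : ℂ} (hb : 0 < b.re) :
    ∫ x, 𝓕 f x * cexp (-(π * b) * ((‖x‖ ^ 2 : ℝ) : ℂ)) =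
      (1 / b) ^ ((d : ℂ) / 2) * ∫ x, f x * cexp (-(π / b) * ((‖x‖ ^ 2 : ℝ) : ℂ)) := by
  have hb0 : b ≠ 0 := by rintro rfl; simp at hb
  have hπ : (π : ℂ) ≠ 0 := by exact_mod_cast Real.pi_ne_zero
  have hpb : 0 < (π * b : ℂ).re := by
    rw [Complex.re_ofReal_mul]; exact mul_pos Real.pi_pos hb
  have hint : Integrable (fun x : E d => cexp (-(π * b) * ((‖x‖ ^ 2 : ℝ) : ℂ))) := by
    have := GaussianFourier.integrable_cexp_neg_mul_sq_norm_add (V := E d) hpb 0 0
    simpa using this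
  have h := VectorFourier.integral_fourierIntegral_smul_eq_flip (L := innerₗ (E d))
    (e := Real.fourierChar) Real.continuous_fourierChar continuous_inner
    (f.integrable (μ := volume)) hint
  have h1 : ∀ x : E d, VectorFourier.fourierIntegral Real.fourierChar volume (innerₗ (E d)).flip
      (fun x : E d => cexp (-(π * b) * ((‖x‖ ^ 2 : ℝ) : ℂ))) x =
      (1 / b) ^ ((d : ℂ) / 2) * cexp (-(π / b) * ((‖x‖ ^ 2 : ℝ) : ℂ)) := by
    intro x
    have h2 := fourier_gaussian_innerProductSpace (V := E d) hpb x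
    have h3 : VectorFourier.fourierIntegral Real.fourierChar volume (innerₗ (E d)).flip
      (fun x : E d => cexp (-(π * b) * ((‖x‖ ^ 2 : ℝ) : ℂ))) x =
      𝓕 (fun v : E d => cexp (-(π * b) * ‖v‖ ^ 2)) x := by
      simp only [Real.fourier_eq, VectorFourier.fourierIntegral]
      congr 1
      funext v
      simp [real_inner_comm]
    rw [h3, h2]
    have hd : (Module.finrank ℝ (E d) : ℂ) = d := by simp
    rw [hd]
    congr 1
    · congr 1
      field_simp
    · congr 1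
      push_cast
      field_simp
  simp only [smul_eq_mul] at h
  have h4 : (∫ x, 𝓕 f x * cexp (-(π * b) * ((‖x‖ ^ 2 : ℝ) : ℂ))) =
      ∫ ξ, VectorFourier.fourierIntegral Real.fourierChar volume (innerₗ (E d)) (⇑f) ξ *
        cexp (-(π * b) * ((‖ξ‖ ^ 2 : ℝ) : ℂ)) := rfl
  rw [h4, h]
  simp only [h1]
  rw [← integral_const_mul]
  congr 1
  funext x
  ring

/-- the limit of the integrals -/
theorem gauss_lim (f : 𝓢(E d, ℂ)) {c : ℝ → ℂ} {y : ℝ}
    (hc : Tendsto c (𝓝[>] 0) (𝓝 (-(π * I * y)))) (hre : ∀ t : ℝ, 0 < t → 0 ≤ (c t).re) :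
    Tendsto (fun t : ℝ => ∫ x, f x * cexp (-(c t) * ((‖x‖ ^ 2 : ℝ) : ℂ))) (𝓝[>] 0)
      (𝓝 (phi (fun x => f x) y)) := by
  unfold phi
  refine tendsto_integral_filter_of_dominated_convergence (fun x => ‖f x‖) ?_ ?_ ?_ ?_
  · refine Eventually.of_forall fun t => ?_
    exact (f.continuous.mul (by fun_prop)).aestronglyMeasurable
  · filter_upwards [self_mem_nhdsWithin] with t ht
    refine Eventually.of_forall fun x => ?_
    rw [norm_mul]
    refine mul_le_of_le_one_right (norm_nonneg _) ?_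
    rw [Complex.norm_exp, Real.exp_le_one_iff, Complex.re_mul_ofReal, Complex.neg_re]
    have := hre t ht
    have h2 : 0 ≤ ‖x‖ ^ 2 := by positivity
    nlinarith
  · exact f.integrable.norm
  · refine Eventually.of_forall fun x => ?_
    refine Tendsto.mul tendsto_const_nhds ?_
    refine (Complex.continuous_exp.tendsto _).comp ?_
    have h := (hc.neg).mul_const (((‖x‖ ^ 2 : ℝ) : ℂ))
    rwa [neg_neg] at h

/-- the functional equation -/
theorem phi_fourier (f : 𝓢(E d, ℂ)) {y : ℝ} (hy : y ≠ 0) :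
    ‖phi (fun x => 𝓕 f x) y‖ = |y| ^ (-((d : ℝ) / 2)) * ‖phi (fun x => f x) (-1 / y)‖ := by
  have hI : ∀ t : ℝ, ((t : ℂ) - I * y).re = t := by intro t; simp
  have hlim : Tendsto (fun t : ℝ => (t : ℂ) - I * y) (𝓝[>] 0) (𝓝 (-(I * y))) := by
    have h : Tendsto (fun t : ℝ => (t : ℂ) - I * y) (𝓝 0) (𝓝 (((0 : ℝ) : ℂ) - I * y)) :=
      (Continuous.tendsto (by fun_prop) 0)
    rw [Complex.ofReal_zero, zero_sub] at h
    exact h.mono_left nhdsWithin_le_nhds
  have hne : -(I * (y : ℂ)) ≠ 0 := by simp [hy]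
  -- the left side
  have hL := gauss_lim (𝓕 f) (c := fun t : ℝ => π * ((t : ℂ) - I * y)) (y := y) (by
    have := hlim.const_mul (π : ℂ)
    convert this using 2
    ring) (by
    intro t ht
    rw [Complex.re_ofReal_mul, hI]
    exact mul_nonneg Real.pi_pos.le ht.le)
  -- the right side
  have hinv : Tendsto (fun t : ℝ => 1 / ((t : ℂ) - I * y)) (𝓝[>] 0) (𝓝 (1 / (-(I * y)))) := by
    simp only [one_div]
    exact hlim.inv₀ hne
  have hR := gauss_lim f (c := fun t : ℝ => π / ((t : ℂ) - I * y)) (y := -1 / y) (by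
    have h := hinv.const_mul (π : ℂ)
    have h2 : (π : ℂ) * (1 / (-(I * y))) = -(π * I * ((-1 / y : ℝ) : ℂ)) := by
      have hy' : (y : ℂ) ≠ 0 := by exact_mod_cast hy
      push_cast
      field_simp
      rw [Complex.I_sq]
    rw [h2] at h
    refine h.congr fun t => ?_
    rw [mul_one_div]) (by
    intro t ht
    rw [div_eq_mul_inv, Complex.re_ofReal_mul]
    refine mul_nonneg Real.pi_pos.le ?_
    rw [Complex.inv_re, hI]
    exact div_nonneg ht.le (Complex.normSq_nonneg _))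
  have hEq : ∀ t : ℝ, 0 < t → ‖∫ x, 𝓕 f x * cexp (-(π * ((t : ℂ) - I * y)) * ((‖x‖ ^ 2 : ℝ) : ℂ))‖ =
      ‖1 / ((t : ℂ) - I * y)‖ ^ ((d : ℝ) / 2) *
        ‖∫ x, f x * cexp (-(π / ((t : ℂ) - I * y)) * ((‖x‖ ^ 2 : ℝ) : ℂ))‖ := by
    intro t ht
    rw [gauss_eq f (b := (t : ℂ) - I * y) (by rw [hI]; exact ht), norm_mul]
    congr 1
    have h5 : ((d : ℂ) / 2) = (((d : ℝ) / 2 : ℝ) : ℂ) := by push_cast; rfl
    rw [h5, Complex.norm_cpow_real]
  have h6 : Tendsto (fun t : ℝ => ‖1 / ((t : ℂ) - I * y)‖ ^ ((d : ℝ) / 2) *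
        ‖∫ x, f x * cexp (-(π / ((t : ℂ) - I * y)) * ((‖x‖ ^ 2 : ℝ) : ℂ))‖) (𝓝[>] 0)
      (𝓝 (‖1 / (-(I * (y : ℂ)))‖ ^ ((d : ℝ) / 2) * ‖phi (fun x => f x) (-1 / y)‖)) := by
    refine Tendsto.mul ?_ hR.norm
    exact (hinv.norm).rpow_const (Or.inr (by positivity))
  have h7 := tendsto_nhds_unique_of_eventuallyEq hL.norm h6 (by
    filter_upwards [self_mem_nhdsWithin] with t ht using hEq t ht)
  rw [h7]
  congr 1
  have h8 : ‖1 / (-(I * (y : ℂ)))‖ = |y|⁻¹ := by
    rw [norm_div, norm_neg, norm_mul, Complex.norm_I, one_mul, norm_one, Complex.norm_real,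
      Real.norm_eq_abs, one_div]
  rw [h8, Real.inv_rpow (abs_nonneg _), ← Real.rpow_neg (abs_nonneg _)]

end Pool.Agent.L5helper93.FU
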