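import Pool.Agent.L5helper93.FU.Ineq

/-!
Change of variables `u = -1/v` and conclusion.
-/

set_option autoImplicit false

namespace Pool.Agent.L5helper93.FU

open MeasureTheory Filter Topology Set
open scoped ENNReal

/-- the punctured interval -/
def V : Set ℝ := {v | v ≠ 0 ∧ |v| < 1}

theorem V_open : IsOpen V :=
  isOpen_ne.inter (isOpen_lt continuous_abs continuous_const)

theorem image_V : (fun v : ℝ => -v⁻¹) '' V = (Icc (-1 : ℝ) 1)ᶜ := by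
  ext u
  have hU : u ∈ (Icc (-1 : ℝ) 1)ᶜ ↔ 1 < |u| := by
    rw [mem_compl_iff, mem_Icc, ← abs_le, not_le]
  rw [hU]
  constructor
  · rintro ⟨v, ⟨h0, h1⟩, rfl⟩
    show 1 < |-v⁻¹|
    rw [abs_neg, abs_inv]
    exact (one_lt_inv₀ (abs_pos.mpr h0)).mpr h1
  · intro hu
    have hu0 : u ≠ 0 := by
      rintro rfl
      simp at hu
      linarith
    refine ⟨-u⁻¹, ⟨neg_ne_zero.mpr (inv_ne_zero hu0), ?_⟩, ?_⟩
    · rw [abs_neg, abs_inv]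
      exact inv_lt_one_of_one_lt₀ hu
    · show -(-u⁻¹)⁻¹ = u
      rw [inv_neg, inv_inv, neg_neg]

theorem outer {Ψ Φ : ℝ → ℂ} {D : ℝ}
    (h : ∀ z : ℝ, z ≠ 0 → ‖Ψ z‖ = |z| ^ (-D) * ‖Φ (-1 / z)‖) :
    ∫⁻ u in (Ioc (-1 : ℝ) 1)ᶜ, ENNReal.ofReal (|u| * ‖Ψ u‖) =
      ∫⁻ v in V, ENNReal.ofReal (|v| ^ (D - 3) * ‖Φ v‖) := by
  have h1 : ((Ioc (-1 : ℝ) 1)ᶜ : Set ℝ) =ᵐ[volume] ((Icc (-1 : ℝ) 1)ᶜ : Set ℝ) :=
    (Ioc_ae_eq_Icc (μ := volume) (a := (-1 : ℝ)) (b := 1)).compl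
  rw [setLIntegral_congr h1, ← image_V, lintegral_image_eq_lintegral_abs_deriv_mul
    (f' := fun v : ℝ => (v ^ 2)⁻¹) V_open.measurableSet (by
      intro v hv
      have h2 := (hasDerivAt_inv hv.1).neg.hasDerivWithinAt (s := V)
      exact h2.congr_deriv (by ring)) (by
      intro a _ b _ hab
      have hab' : -a⁻¹ = -b⁻¹ := hab
      exact inv_injective (neg_injective hab'))]
  refine setLIntegral_congr_fun V_open.measurableSet ?_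
  intro v hv
  obtain ⟨hv0, hv1⟩ := hv
  have hp : 0 < |v| := abs_pos.mpr hv0
  show ENNReal.ofReal |(v ^ 2)⁻¹| * ENNReal.ofReal (|-v⁻¹| * ‖Ψ (-v⁻¹)‖) = _
  rw [h (-v⁻¹) (neg_ne_zero.mpr (inv_ne_zero hv0)),
    ← ENNReal.ofReal_mul (abs_nonneg _)]
  congr 1
  have e1 : -1 / -v⁻¹ = v := by field_simp
  rw [e1, abs_neg, abs_inv, abs_inv, abs_pow, Real.rpow_neg (by positivity),
    Real.inv_rpow hp.le, inv_inv]
  have e2 : |v| ^ (D - 3) = (|v| ^ 2)⁻¹ * (|v|⁻¹ * |v| ^ D) := by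
    rw [Real.rpow_sub hp]
    have : |v| ^ (3 : ℝ) = |v| ^ 3 := by exact_mod_cast Real.rpow_natCast |v| 3
    rw [this]
    field_simp
  rw [e2]
  ring

theorem pow_lt {D : ℝ} (hD : 4 < D) {v : ℝ} (hv : v ∈ V) : |v| ^ (D - 3) < |v| := by
  have := Real.rpow_lt_rpow_of_exponent_gt (abs_pos.mpr hv.1) hv.2 (by linarith : (1 : ℝ) < D - 3)
  rwa [Real.rpow_one] at this

theorem chain {Ψ Φ : ℝ → ℂ} {D : ℝ} (hD : 4 < D)
    (h : ∀ z : ℝ, z ≠ 0 → ‖Ψ z‖ = |z| ^ (-D) * ‖Φ (-1 / z)‖)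
    (hh : ∫⁻ u in Ioc (-1 : ℝ) 1, ENNReal.ofReal (|u| * ‖Ψ u‖) ≤
      ∫⁻ u in (Ioc (-1 : ℝ) 1)ᶜ, ENNReal.ofReal (|u| * ‖Ψ u‖)) :
    ∫⁻ u in Ioc (-1 : ℝ) 1, ENNReal.ofReal (|u| * ‖Ψ u‖) ≤
      ∫⁻ v in V, ENNReal.ofReal (|v| ^ (D - 3) * ‖Φ v‖) ∧
    ∫⁻ v in V, ENNReal.ofReal (|v| ^ (D - 3) * ‖Φ v‖) ≤
      ∫⁻ v in V, ENNReal.ofReal (|v| * ‖Φ v‖) ∧
    ∫⁻ v in V, ENNReal.ofReal (|v| * ‖Φ v‖) ≤
      ∫⁻ v in Ioc (-1 : ℝ) 1, ENNReal.ofReal (|v| * ‖Φ v‖) := by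
  refine ⟨hh.trans (outer h).le, ?_, ?_⟩
  · refine setLIntegral_mono' V_open.measurableSet fun v hv => ?_
    apply ENNReal.ofReal_le_ofReal
    exact mul_le_mul_of_nonneg_right (pow_lt hD hv).le (norm_nonneg _)
  · refine lintegral_mono_set fun v hv => ?_
    have := abs_lt.mp hv.2
    exact ⟨this.1, this.2.le⟩

theorem zero_on_V {Ψ Φ : ℝ → ℂ} {D : ℝ} (hD : 4 < D) (hcΦ : Continuous Φ)
    (h : ∀ z : ℝ, z ≠ 0 → ‖Ψ z‖ = |z| ^ (-D) * ‖Φ (-1 / z)‖)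
    (h' : ∀ z : ℝ, z ≠ 0 → ‖Φ z‖ = |z| ^ (-D) * ‖Ψ (-1 / z)‖)
    (hh : ∫⁻ u in Ioc (-1 : ℝ) 1, ENNReal.ofReal (|u| * ‖Ψ u‖) ≤
      ∫⁻ u in (Ioc (-1 : ℝ) 1)ᶜ, ENNReal.ofReal (|u| * ‖Ψ u‖))
    (hh' : ∫⁻ u in Ioc (-1 : ℝ) 1, ENNReal.ofReal (|u| * ‖Φ u‖) ≤
      ∫⁻ u in (Ioc (-1 : ℝ) 1)ᶜ, ENNReal.ofReal (|u| * ‖Φ u‖)) :
    ∀ v ∈ V, Φ v = 0 := by
  obtain ⟨a1, a2, a3⟩ := chain hD h hh
  obtain ⟨b1, b2, b3⟩ := chain hD h' hh'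
  have hle : ∫⁻ v in V, ENNReal.ofReal (|v| * ‖Φ v‖) ≤
      ∫⁻ v in V, ENNReal.ofReal (|v| ^ (D - 3) * ‖Φ v‖) :=
    a3.trans (b1.trans (b2.trans (b3.trans a1)))
  have hfin : ∫⁻ v in V, ENNReal.ofReal (|v| ^ (D - 3) * ‖Φ v‖) ≠ ∞ := by
    refine ne_top_of_le_ne_top ?_ (a2.trans a3)
    have hcont : Continuous (fun u : ℝ => |u| * ‖Φ u‖) := by fun_prop
    have hI : IntegrableOn (fun u : ℝ => |u| * ‖Φ u‖) (Ioc (-1) 1) :=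
      (hcont.integrableOn_Icc (a := -1) (b := 1)).mono_set Ioc_subset_Icc_self
    exact hI.lintegral_lt_top.ne
  have hae := ae_eq_of_ae_le_of_lintegral_le (μ := volume.restrict V)
    (f := fun v => ENNReal.ofReal (|v| ^ (D - 3) * ‖Φ v‖))
    (g := fun v => ENNReal.ofReal (|v| * ‖Φ v‖)) (by
      filter_upwards [ae_restrict_mem V_open.measurableSet] with v hv
      apply ENNReal.ofReal_le_ofReal
      exact mul_le_mul_of_nonneg_right (pow_lt hD hv).le (norm_nonneg _)) hfin (by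
      exact ((Continuous.measurable (by fun_prop)).ennreal_ofReal).aemeasurable) hle
  have hae2 : ∀ᵐ v ∂(volume.restrict V), Φ v = 0 := by
    filter_upwards [hae, ae_restrict_mem V_open.measurableSet] with v hv hvV
    by_contra hne
    have hpos : 0 < ‖Φ v‖ := norm_pos_iff.mpr hne
    have h1 : |v| ^ (D - 3) * ‖Φ v‖ < |v| * ‖Φ v‖ := mul_lt_mul_of_pos_right (pow_lt hD hvV) hpos
    have h2 : 0 < |v| * ‖Φ v‖ := mul_pos (abs_pos.mpr hvV.1) hpos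
    exact absurd hv (ne_of_lt ((ENNReal.ofReal_lt_ofReal_iff h2).mpr h1))
  have hopen : IsOpen (V ∩ {v | Φ v ≠ 0}) := V_open.inter (isOpen_ne_fun hcΦ continuous_const)
  have hnull : volume (V ∩ {v | Φ v ≠ 0}) = 0 := by
    have h1 := (ae_restrict_iff' V_open.measurableSet).mp hae2
    have h2 : volume {v | ¬(v ∈ V → Φ v = 0)} = 0 := h1
    refine measure_mono_null ?_ h2
    rintro v ⟨hv, hv2⟩ h3
    exact hv2 (h3 hv)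
  have hemp := hopen.eq_empty_of_measure_zero hnull
  intro v hv
  by_contra hne
  have : v ∈ V ∩ {v | Φ v ≠ 0} := ⟨hv, hne⟩
  rw [hemp] at this
  exact this

theorem all_zero {Ψ Φ : ℝ → ℂ} {D : ℝ} (hD : 4 < D) (hcΨ : Continuous Ψ) (hcΦ : Continuous Φ)
    (h : ∀ z : ℝ, z ≠ 0 → ‖Ψ z‖ = |z| ^ (-D) * ‖Φ (-1 / z)‖)
    (h' : ∀ z : ℝ, z ≠ 0 → ‖Φ z‖ = |z| ^ (-D) * ‖Ψ (-1 / z)‖)
    (hh : ∫⁻ u in Ioc (-1 : ℝ) 1, ENNReal.ofReal (|u| * ‖Ψ u‖) ≤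
      ∫⁻ u in (Ioc (-1 : ℝ) 1)ᶜ, ENNReal.ofReal (|u| * ‖Ψ u‖))
    (hh' : ∫⁻ u in Ioc (-1 : ℝ) 1, ENNReal.ofReal (|u| * ‖Φ u‖) ≤
      ∫⁻ u in (Ioc (-1 : ℝ) 1)ᶜ, ENNReal.ofReal (|u| * ‖Φ u‖)) : Ψ = 0 := by
  have k1 := zero_on_V hD hcΦ h h' hh hh'
  have k2 := zero_on_V hD hcΨ h' h hh' hh
  have hdense : Dense (({-1, 0, 1} : Set ℝ)ᶜ) := (Set.toFinite _).countable.dense_compl ℝ
  refine Continuous.ext_on hdense hcΨ continuous_zero ?_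
  intro z hz
  simp only [mem_compl_iff, mem_insert_iff, mem_singleton_iff, not_or] at hz
  obtain ⟨hz1, hz2, hz3⟩ := hz
  show Ψ z = 0
  rcases lt_trichotomy |z| 1 with hlt | heq | hgt
  · exact k2 z ⟨hz2, hlt⟩
  · exfalso
    rcases abs_eq (by norm_num : (0 : ℝ) ≤ 1) |>.mp heq with h3 | h3
    · exact hz3 h3
    · exact hz1 h3
  · have h3 : (-1 / z) ∈ V := by
      refine ⟨by simp [hz2], ?_⟩
      rw [abs_div, abs_neg, abs_one, div_lt_one (by linarith)]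
      exact hgt
    have h4 := h z hz2
    rw [k1 _ h3, norm_zero, mul_zero] at h4
    exact norm_eq_zero.mp h4

end Pool.Agent.L5helper93.FU
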