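import Pool.Agent.L5helper93.FU.Poi
import Pool.Agent.L5helper93.FU.Zero

/-!
Uniqueness from double zeros at the radii `√(2n)`, `n ≥ 1`, in all dimensions `d ≥ 9`.
-/

set_option autoImplicit false

namespace Pool.Agent.L5helper93.FU

open MeasureTheory Complex Filter Topology Set
open scoped FourierTransform SchwartzMap Real ENNReal

/-- the profile as a Schwartz function on the line -/
theorem exists_profile {d : ℕ} (e : E d) (he : ‖e‖ = 1) (f : 𝓢(E d, ℂ)) :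
    ∃ F : 𝓢(ℝ, ℂ), ∀ r : ℝ, F r = f (r • e) := by
  have hg : (fun r : ℝ => r • e).HasTemperateGrowth :=
    ((ContinuousLinearMap.id ℝ ℝ).smulRight e).hasTemperateGrowth
  have ha : AntilipschitzWith 1 (fun r : ℝ => r • e) := by
    refine AntilipschitzWith.of_le_mul_dist fun x y => ?_
    rw [dist_eq_norm, dist_eq_norm, ← sub_smul, norm_smul, he]
    simp
  exact ⟨SchwartzMap.compCLMOfAntilipschitz ℂ hg ha f, fun r => rfl⟩

/-- the constant of the polar coordinates -/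
theorem phi_polar {n : ℕ} (f : 𝓢(E (n + 4), ℂ)) (F : 𝓢(ℝ, ℂ)) (hF : ∀ x, f x = F ‖x‖) (z : ℝ) :
    phi (fun x => f x) z = (((n + 4 : ℕ) : ℝ) *
      (volume : Measure (E (n + 4))).real (Metric.ball 0 1) : ℝ) *
      psi (fun r => F r * (r : ℂ) ^ (n + 2)) z := by
  have h1 : phi (fun x => f x) z = ∫ x : E (n + 4), (fun r : ℝ => F r *
      cexp (π * I * z * ((r ^ 2 : ℝ) : ℂ))) ‖x‖ := by
    unfold phi
    congr 1
    funext x
    show f x * _ = F ‖x‖ * _
    rw [hF]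
  have h2 := integral_fun_norm_addHaar (volume : Measure (E (n + 4)))
    (fun r : ℝ => F r * cexp (π * I * z * ((r ^ 2 : ℝ) : ℂ)))
  have hdim : Module.finrank ℝ (E (n + 4)) = n + 4 := by simp
  rw [h1, h2, hdim]
  have h3 : ∫ y in Ioi (0 : ℝ), y ^ (n + 4 - 1) • (F y * cexp (π * I * z * ((y ^ 2 : ℝ) : ℂ))) =
      psi (fun r => F r * (r : ℂ) ^ (n + 2)) z := by
    unfold psi
    refine setIntegral_congr_fun measurableSet_Ioi fun r _ => ?_
    have h4 : n + 4 - 1 = n + 3 := by omega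
    simp only [h4]
    rw [Complex.real_smul]
    push_cast
    ring
  rw [h3, nsmul_eq_mul, Complex.real_smul]
  push_cast
  ring

/-- both Poisson relations for `φ_f` -/
theorem relations {n : ℕ} (hn : 1 ≤ n) (f : 𝓢(E (n + 4), ℂ)) (F : 𝓢(ℝ, ℂ))
    (hF : ∀ x, f x = F ‖x‖) (a : ℝ) (h0 : ∀ k : ℤ, 0 < 2 * (k : ℝ) + a → F (√(2 * k + a)) = 0)
    (h1 : ∀ k : ℤ, 0 < 2 * (k : ℝ) + a → deriv F (√(2 * k + a)) = 0) {M : ℝ}
    (hM2 : ∀ z, ‖phi (fun x => f x) z‖ * |z| ^ 2 ≤ M)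
    (hM3 : ∀ z, ‖phi (fun x => f x) z‖ * |z| ^ 3 ≤ M) (y : ℝ) :
    (Summable (fun m : ℤ => tw a (y + m) * phi (fun x => f x) (y + m)) ∧
      ∑' m : ℤ, tw a (y + m) * phi (fun x => f x) (y + m) = 0) ∧
    (Summable (fun m : ℤ => ((y + m : ℝ) : ℂ) * (tw a (y + m) * phi (fun x => f x) (y + m))) ∧
      ∑' m : ℤ, ((y + m : ℝ) : ℂ) * (tw a (y + m) * phi (fun x => f x) (y + m)) = 0) := by
  set c : ℝ := ((n + 4 : ℕ) : ℝ) * (volume : Measure (E (n + 4))).real (Metric.ball 0 1) with hc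
  have hcpos : 0 < c := by
    have : 0 < (volume : Measure (E (n + 4))).real (Metric.ball 0 1) := by
      rw [measureReal_def]
      exact ENNReal.toReal_pos (Metric.measure_ball_pos _ _ one_pos).ne'
        measure_ball_lt_top.ne
    positivity
  set g₀ : ℝ → ℂ := fun r => F r * (r : ℂ) ^ (n + 2) with hg₀
  set g₁ : ℝ → ℂ := fun r => deriv F r * (r : ℂ) ^ (n + 1) + (n + 2) * (F r * (r : ℂ) ^ n) with hg₁
  have hphi : ∀ z, phi (fun x => f x) z = c * psi g₀ z := fun z => phi_polar f F hF z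
  have hibp : ∀ z, psi g₁ z = -(2 * π * I * z) * psi g₀ z := fun z => ibp F n z
  set F' : 𝓢(ℝ, ℂ) := SchwartzMap.derivCLM ℂ ℂ F with hF'
  have hF'a : ∀ r, F' r = deriv F r := fun r => rfl
  have hnorm : ∀ z, ‖phi (fun x => f x) z‖ = c * ‖psi g₀ z‖ := by
    intro z
    rw [hphi, norm_mul, Complex.norm_real, Real.norm_eq_abs, abs_of_pos hcpos]
  -- decay
  have dec : ∀ (G : 𝓢(ℝ, ℂ)) (k : ℕ), ∃ C : ℝ, ∀ r : ℝ, 0 < r → ‖G r * (r : ℂ) ^ k‖ * r ^ 4 ≤ C := by
    intro G k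
    obtain ⟨C, hC⟩ := G.decay (k + 4) 0
    refine ⟨C, fun r hr => ?_⟩
    have h2 := hC.2 r
    rw [norm_iteratedFDeriv_zero, Real.norm_eq_abs, abs_of_pos hr] at h2
    rw [norm_mul, norm_pow, Complex.norm_real, Real.norm_eq_abs, abs_of_pos hr]
    calc ‖G r‖ * r ^ k * r ^ 4 = r ^ (k + 4) * ‖G r‖ := by ring
      _ ≤ C := h2
  obtain ⟨C₀, hC₀⟩ := dec F (n + 2)
  obtain ⟨C₁, hC₁⟩ := dec F' (n + 1)
  obtain ⟨C₂, hC₂⟩ := dec F n
  have hd1 : ∀ r, 0 < r → ‖g₁ r‖ * r ^ 4 ≤ C₁ + (n + 2) * C₂ := by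
    intro r hr
    have hr4 : 0 < r ^ 4 := by positivity
    have h2 : ‖g₁ r‖ ≤ ‖F' r * (r : ℂ) ^ (n + 1)‖ + (n + 2) * ‖F r * (r : ℂ) ^ n‖ := by
      rw [hg₁]
      refine (norm_add_le _ _).trans ?_
      gcongr
      · exact le_of_eq (by rw [hF'a])
      · rw [norm_mul]
        refine mul_le_mul_of_nonneg_right (le_of_eq ?_) (norm_nonneg _)
        have : ((n : ℂ) + 2) = ((n + 2 : ℕ) : ℂ) := by push_cast; rfl
        rw [this, Complex.norm_natCast]
        push_cast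
        rfl
    have h3 := hC₁ r hr
    have h4 := hC₂ r hr
    calc ‖g₁ r‖ * r ^ 4 ≤ (‖F' r * (r : ℂ) ^ (n + 1)‖ + (n + 2) * ‖F r * (r : ℂ) ^ n‖) * r ^ 4 :=
          mul_le_mul_of_nonneg_right h2 hr4.le
      _ = ‖F' r * (r : ℂ) ^ (n + 1)‖ * r ^ 4 + (n + 2) * (‖F r * (r : ℂ) ^ n‖ * r ^ 4) := by ring
      _ ≤ C₁ + (n + 2) * C₂ := by gcongr
  have hcont0 : Continuous g₀ := F.continuous.mul (by fun_prop)
  have hcont1 : Continuous g₁ :=
    (F'.continuous.mul (by fun_prop)).add (continuous_const.mul (F.continuous.mul (by fun_prop)))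
  have hP0 := poisson g₀ hcont0 (by rw [hg₀]; simp) (C := C₀) (fun r hr => hC₀ r hr)
    (C' := M / c) (by
      intro z
      have := hM2 z
      rw [hnorm, sq_abs] at this
      rw [le_div_iff₀ hcpos]
      linarith) a (by
      intro k hk
      rw [hg₀]
      simp only [h0 k hk, zero_mul]) y
  have hP1 := poisson g₁ hcont1 (by
      rw [hg₁]
      simp only [Complex.ofReal_zero]
      rw [zero_pow (by omega), zero_pow (by omega)]
      ring) (C := C₁ + (n + 2) * C₂) hd1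
    (C' := 2 * π * (M / c)) (by
      intro z
      have := hM3 z
      rw [hnorm] at this
      have h5 : ‖psi g₁ z‖ = 2 * π * |z| * ‖psi g₀ z‖ := by
        rw [hibp, norm_mul, norm_neg, norm_mul, norm_mul, norm_mul, Complex.norm_I,
          Complex.norm_real, Complex.norm_real, Real.norm_eq_abs, Real.norm_eq_abs,
          abs_of_pos Real.pi_pos]
        simp
      rw [h5, ← sq_abs z]
      have h6 : ‖psi g₀ z‖ * |z| ^ 3 ≤ M / c := by
        rw [le_div_iff₀ hcpos]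
        linarith
      calc 2 * π * |z| * ‖psi g₀ z‖ * |z| ^ 2 = 2 * π * (‖psi g₀ z‖ * |z| ^ 3) := by ring
        _ ≤ 2 * π * (M / c) := by gcongr) a (by
      intro k hk
      rw [hg₁]
      simp only [h0 k hk, h1 k hk, zero_mul, mul_zero, add_zero]) y
  have h8 : ∀ m : ℤ, tw a (y + m) * phi (fun x => f x) (y + m) =
      c * (tw a (y + m) * psi g₀ (y + m)) := by
    intro m
    rw [hphi]
    ring
  refine ⟨⟨?_, ?_⟩, ?_, ?_⟩
  · simp only [h8]
    exact hP0.1.mul_left _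
  · simp only [h8]
    rw [tsum_mul_left, hP0.2, mul_zero]
  all_goals
    have hI : (2 * π * I : ℂ) ≠ 0 := by simp [Real.pi_ne_zero]
    have h7 : ∀ m : ℤ, ((y + m : ℝ) : ℂ) * (tw a (y + m) * phi (fun x => f x) (y + m)) =
        (-(c / (2 * π * I))) * (tw a (y + m) * psi g₁ (y + m)) := by
      intro m
      rw [hphi, hibp]
      field_simp
    simp only [h7]
  · exact hP1.1.mul_left _
  · rw [tsum_mul_left, hP1.2, mul_zero]

/-- bounds for `φ_f` from the functional equation -/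
theorem phi_decay {n : ℕ} (hn : 2 ≤ n) (f g : 𝓢(E (n + 4), ℂ)) (hfg : 𝓕 g = f) (k : ℕ)
    (hk : k ≤ 3) (z : ℝ) :
    ‖phi (fun x => f x) z‖ * |z| ^ k ≤ (∫ x, ‖f x‖) + ∫ x, ‖g x‖ := by
  have hA : 0 ≤ ∫ x, ‖f x‖ := integral_nonneg fun x => norm_nonneg _
  have hB : 0 ≤ ∫ x, ‖g x‖ := integral_nonneg fun x => norm_nonneg _
  rcases le_or_gt |z| 1 with hz | hz
  · have h1 := phi_bound f z
    have h2 : |z| ^ k ≤ 1 := pow_le_one₀ (abs_nonneg _) hz
    calc ‖phi (fun x => f x) z‖ * |z| ^ k ≤ ‖phi (fun x => f x) z‖ * 1 :=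
          mul_le_mul_of_nonneg_left h2 (norm_nonneg _)
      _ ≤ _ := by linarith
  · have hz0 : z ≠ 0 := by rintro rfl; simp at hz; linarith
    have hp : 0 < |z| := by linarith
    have h1 := phi_fourier g hz0
    rw [hfg] at h1
    rw [h1]
    have h2 := phi_bound g (-1 / z)
    have h3 : |z| ^ (-(((n + 4 : ℕ) : ℝ) / 2)) * |z| ^ k ≤ 1 := by
      rw [← Real.rpow_natCast |z| k, ← Real.rpow_add hp]
      apply Real.rpow_le_one_of_one_le_of_nonpos hz.le
      have : (k : ℝ) ≤ 3 := by exact_mod_cast hk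
      have h4 : (2 : ℝ) ≤ n := by exact_mod_cast hn
      push_cast
      linarith
    have hpp : 0 ≤ |z| ^ (-(((n + 4 : ℕ) : ℝ) / 2)) * |z| ^ k := by positivity
    calc |z| ^ (-(((n + 4 : ℕ) : ℝ) / 2)) * ‖phi (fun x => g x) (-1 / z)‖ * |z| ^ k =
          (|z| ^ (-(((n + 4 : ℕ) : ℝ) / 2)) * |z| ^ k) * ‖phi (fun x => g x) (-1 / z)‖ := by ring
      _ ≤ 1 * ‖phi (fun x => g x) (-1 / z)‖ := mul_le_mul_of_nonneg_right h3 (norm_nonneg _)
      _ ≤ _ := by linarith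

/-- injectivity -/
theorem zero_of_psi {n : ℕ} (F : 𝓢(ℝ, ℂ))
    (h : ∀ z, psi (fun r => F r * (r : ℂ) ^ (n + 2)) z = 0) (r : ℝ) (hr : 0 < r) : F r = 0 := by
  set g : ℝ → ℂ := fun r => F r * (r : ℂ) ^ (n + 2) with hg
  have hg0 : g 0 = 0 := by rw [hg]; simp
  have hcg : Continuous g := F.continuous.mul (by fun_prop)
  set u : ℝ → ℂ := fun s => g (√(2 * s)) with hu
  have hcont : Continuous u := hcg.comp (Real.continuous_sqrt.comp (by fun_prop))
  have hF : ∀ w : ℝ, 𝓕 u w = 0 := by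
    intro w
    rw [Real.fourier_real_eq_integral_exp_smul, ← h (-w), ← cov g hg0]
    congr 1
    funext s
    rw [hu, smul_eq_mul, mul_comm]
    congr 2
    push_cast
    ring
  have hF' : 𝓕 u = 0 := funext hF
  -- integrability
  obtain ⟨C₀, hC₀⟩ := F.decay (n + 2) 0
  obtain ⟨C₁, hC₁⟩ := F.decay (n + 6) 0
  have hb : ∀ s : ℝ, ‖u s‖ ≤ (C₀ + C₁) * (1 + s ^ 2)⁻¹ := by
    intro s
    rw [← div_eq_mul_inv, le_div_iff₀ (by positivity)]
    rcases le_or_gt s 0 with hs | hs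
    · have : √(2 * s) = 0 := Real.sqrt_eq_zero_of_nonpos (by linarith)
      rw [hu]
      simp only [this, hg0, norm_zero, zero_mul]
      linarith [hC₀.1, hC₁.1]
    · have hq := Real.sqrt_pos.mpr (by linarith : 0 < 2 * s)
      have h1 := hC₀.2 (√(2 * s))
      have h2 := hC₁.2 (√(2 * s))
      rw [norm_iteratedFDeriv_zero, Real.norm_eq_abs, abs_of_pos hq] at h1 h2
      have h3 : ‖u s‖ = √(2 * s) ^ (n + 2) * ‖F (√(2 * s))‖ := by
        rw [hu, hg]
        simp only []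
        rw [norm_mul, norm_pow, Complex.norm_real, Real.norm_eq_abs, abs_of_pos hq, mul_comm]
      have h4 : √(2 * s) ^ 4 = 4 * s ^ 2 := by
        have : √(2 * s) ^ 4 = (√(2 * s) ^ 2) ^ 2 := by ring
        rw [this, Real.sq_sqrt (by linarith)]
        ring
      have h5 : √(2 * s) ^ (n + 6) * ‖F (√(2 * s))‖ = ‖u s‖ * (4 * s ^ 2) := by
        rw [h3, ← h4]
        ring
      rw [h5] at h2
      rw [← h3] at h1
      nlinarith [norm_nonneg (u s), sq_nonneg s]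
  have hint : Integrable u := by
    refine (integrable_inv_one_add_sq.const_mul (C₀ + C₁)).mono' hcont.aestronglyMeasurable
      (Eventually.of_forall hb)
  have hinv := hcont.fourierInv_fourier_eq hint (by rw [hF']; exact integrable_zero _ _ _)
  have hu0 : u (r ^ 2 / 2) = 0 := by
    rw [← hinv, hF']
    simp [Real.fourierInv_eq]
  have h3 : √(2 * (r ^ 2 / 2)) = r := by
    rw [mul_div_cancel₀ _ (two_ne_zero)]
    exact Real.sqrt_sq hr.le
  rw [hu] at hu0
  simp only [h3] at hu0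
  rw [hg] at hu0
  simp only [mul_eq_zero] at hu0
  rcases hu0 with h4 | h4
  · exact h4
  · exfalso
    have : (r : ℂ) ≠ 0 := by exact_mod_cast hr.ne'
    exact pow_ne_zero _ this h4

theorem half_tw {Ψ : ℝ → ℂ} (hc : Continuous Ψ) (a : ℝ)
    (s0 : ∀ y : ℝ, Summable fun m : ℤ => tw a (y + m) * Ψ (y + m))
    (z0 : ∀ y : ℝ, ∑' m : ℤ, tw a (y + m) * Ψ (y + m) = 0)
    (s1 : ∀ y : ℝ, Summable fun m : ℤ => ((y + m : ℝ) : ℂ) * (tw a (y + m) * Ψ (y + m)))
    (z1 : ∀ y : ℝ, ∑' m : ℤ, ((y + m : ℝ) : ℂ) * (tw a (y + m) * Ψ (y + m)) = 0) :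
    ∫⁻ u in Ioc (-1 : ℝ) 1, ENNReal.ofReal (|u| * ‖Ψ u‖) ≤
      ∫⁻ u in (Ioc (-1 : ℝ) 1)ᶜ, ENNReal.ofReal (|u| * ‖Ψ u‖) := by
  have h := half (Ψ := fun y => tw a y * Ψ y) (by unfold tw; fun_prop) s0 z0 s1 z1
  have e : ∀ u : ℝ, ‖tw a u * Ψ u‖ = ‖Ψ u‖ := fun u => by rw [norm_mul, norm_tw, one_mul]
  simpa only [e] using h

theorem main {n : ℕ} (hn : 5 ≤ n) (e : E (n + 4)) (he : ‖e‖ = 1) (f : 𝓢(E (n + 4), ℂ))
    (hrad : ∀ x y, ‖x‖ = ‖y‖ → f x = f y) (a b : ℝ)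
    (h : ∀ k : ℤ, 0 < 2 * (k : ℝ) + a →
      f (√(2 * k + a) • e) = 0 ∧ deriv (fun t : ℝ => f (t • e)) (√(2 * k + a)) = 0)
    (h' : ∀ k : ℤ, 0 < 2 * (k : ℝ) + b →
      𝓕 f (√(2 * k + b) • e) = 0 ∧ deriv (fun t : ℝ => 𝓕 f (t • e)) (√(2 * k + b)) = 0) :
    f = 0 := by
  set g : 𝓢(E (n + 4), ℂ) := 𝓕 f with hg
  have hgrad : ∀ x y, ‖x‖ = ‖y‖ → g x = g y := by
    intro x y hxy
    obtain ⟨A, hA⟩ : ∃ A : E (n + 4) ≃ₗᵢ[ℝ] E (n + 4), A x = y :=
      ⟨_, Submodule.reflection_sub hxy⟩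
    rw [← hA]
    have h1 : ((fun v => f v) ∘ A) = ⇑f := funext fun v => hrad _ _ (A.norm_map v)
    show 𝓕 f x = 𝓕 f (A x)
    rw [SchwartzMap.fourier_coe]
    have h2 := Real.fourier_comp_linearIsometry A (fun v => f v) x
    rw [← h2, h1]
  have hfg : 𝓕 g = f := by
    ext x
    have h1 : 𝓕⁻ g (-x) = f (-x) := by
      rw [hg, FourierTransform.fourierInv_fourier_eq]
    rw [SchwartzMap.fourierInv_coe, Real.fourierInv_eq_fourier_neg, neg_neg] at h1
    rw [SchwartzMap.fourier_coe, h1]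
    exact hrad _ _ (norm_neg x)
  obtain ⟨F, hF⟩ := exists_profile e he f
  obtain ⟨G, hG⟩ := exists_profile e he g
  have hFx : ∀ x, f x = F ‖x‖ := fun x => by
    rw [hF]
    exact hrad _ _ (by rw [norm_smul, he, mul_one, norm_norm])
  have hGx : ∀ x, g x = G ‖x‖ := fun x => by
    rw [hG]
    exact hgrad _ _ (by rw [norm_smul, he, mul_one, norm_norm])
  have hFe : (F : ℝ → ℂ) = fun t : ℝ => f (t • e) := funext hF
  have hGe : (G : ℝ → ℂ) = fun t : ℝ => g (t • e) := funext hG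
  have hrelF := relations (by omega : 1 ≤ n) f F hFx a
    (fun k hk => by rw [hF]; exact (h k hk).1) (fun k hk => by rw [hFe]; exact (h k hk).2)
    (M := (∫ x, ‖f x‖) + ∫ x, ‖g x‖) (phi_decay (by omega) f g hfg 2 (by omega))
    (phi_decay (by omega) f g hfg 3 (by omega))
  have hrelG := relations (by omega : 1 ≤ n) g G hGx b
    (fun k hk => by rw [hG]; exact (h' k hk).1) (fun k hk => by rw [hGe]; exact (h' k hk).2)
    (M := (∫ x, ‖g x‖) + ∫ x, ‖f x‖) (phi_decay (by omega) g f rfl 2 (by omega))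
    (phi_decay (by omega) g f rfl 3 (by omega))
  have hz := all_zero (D := ((n + 4 : ℕ) : ℝ) / 2) (by
      have : (5 : ℝ) ≤ n := by exact_mod_cast hn
      push_cast
      linarith) (phi_continuous f) (phi_continuous g) (by
      intro z hz0
      have := phi_fourier g hz0
      rw [hfg] at this
      exact this) (by
      intro z hz0
      exact phi_fourier f hz0)
    (half_tw (phi_continuous f) a (fun y => (hrelF y).1.1) (fun y => (hrelF y).1.2)
      (fun y => (hrelF y).2.1) (fun y => (hrelF y).2.2))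
    (half_tw (phi_continuous g) b (fun y => (hrelG y).1.1) (fun y => (hrelG y).1.2)
      (fun y => (hrelG y).2.1) (fun y => (hrelG y).2.2))
  have hF0 : ∀ r : ℝ, 0 < r → F r = 0 := by
    refine zero_of_psi (n := n) F fun z => ?_
    have h1 := phi_polar f F hFx z
    rw [hz, Pi.zero_apply] at h1
    rcases mul_eq_zero.mp h1.symm with h2 | h2
    · exfalso
      have : 0 < (volume : Measure (E (n + 4))).real (Metric.ball 0 1) := by
        rw [measureReal_def]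
        exact ENNReal.toReal_pos (Metric.measure_ball_pos _ _ one_pos).ne'
          measure_ball_lt_top.ne
      have h3 : (((n + 4 : ℕ) : ℝ) *
        (volume : Measure (E (n + 4))).real (Metric.ball 0 1) : ℝ) = 0 := by exact_mod_cast h2
      have h4 : 0 < ((n + 4 : ℕ) : ℝ) * (volume : Measure (E (n + 4))).real (Metric.ball 0 1) := by
        positivity
      linarith
    · exact h2
  have hF00 : F 0 = 0 := by
    have h1 : Tendsto (fun r => F r) (𝓝[>] (0 : ℝ)) (𝓝 (F 0)) :=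
      (F.continuous.tendsto 0).mono_left nhdsWithin_le_nhds
    have h2 : Tendsto (fun r => F r) (𝓝[>] (0 : ℝ)) (𝓝 0) := by
      refine tendsto_const_nhds.congr' ?_
      filter_upwards [self_mem_nhdsWithin] with r hr using (hF0 r hr).symm
    exact tendsto_nhds_unique h1 h2
  ext x
  rw [hFx]
  rcases (norm_nonneg x).lt_or_eq with hx | hx
  · exact hF0 _ hx
  · rw [← hx]; exact hF00

end Pool.Agent.L5helper93.FU
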