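import Pool.Agent.L5helper93.FU.Ker

/-!
The two Poisson type relations.
-/

set_option autoImplicit false

namespace Pool.Agent.L5helper93.FU

open MeasureTheory Complex Filter Topology Set
open scoped FourierTransform SchwartzMap Real

/-- `∫_0^∞ g(r) r exp(i π z r²) dr` -/
noncomputable def psi (g : ℝ → ℂ) (z : ℝ) : ℂ :=
  ∫ r in Ioi (0 : ℝ), g r * r * cexp (π * I * z * ((r ^ 2 : ℝ) : ℂ))

theorem cov (g : ℝ → ℂ) (h0 : g 0 = 0) (z : ℝ) :
    ∫ s : ℝ, g (√(2 * s)) * cexp (2 * π * I * z * s) = psi g z := by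
  have h1 : ∫ s in Ioi (0 : ℝ), g (√(2 * s)) * cexp (2 * π * I * z * s) =
      ∫ s : ℝ, g (√(2 * s)) * cexp (2 * π * I * z * s) := by
    apply setIntegral_eq_integral_of_forall_compl_eq_zero
    intro s hs
    have : √(2 * s) = 0 := Real.sqrt_eq_zero_of_nonpos (by
      simp only [mem_Ioi, not_lt] at hs; linarith)
    rw [this, h0, zero_mul]
  have himg : (fun r : ℝ => r ^ 2 / 2) '' Ioi 0 = Ioi 0 := by
    ext s
    constructor
    · rintro ⟨r, hr, rfl⟩
      have hr' : 0 < r := hr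
      show 0 < r ^ 2 / 2
      positivity
    · intro hs
      have hs' : 0 < s := hs
      refine ⟨√(2 * s), Real.sqrt_pos.mpr (by linarith), ?_⟩
      show √(2 * s) ^ 2 / 2 = s
      rw [Real.sq_sqrt (by linarith)]
      ring
  have h2 := integral_image_eq_integral_abs_deriv_smul (s := Ioi (0 : ℝ))
    (f := fun r : ℝ => r ^ 2 / 2) (f' := fun r : ℝ => r) measurableSet_Ioi (by
      intro x _
      have h := ((hasDerivAt_pow 2 x).div_const 2).hasDerivWithinAt (s := Ioi (0 : ℝ))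
      exact h.congr_deriv (by norm_num)) (by
      intro x hx y hy hxy
      have hx' : 0 < x := hx
      have hy' : 0 < y := hy
      have hxy' : x ^ 2 / 2 = y ^ 2 / 2 := hxy
      nlinarith [sq_nonneg (x - y)])
    (fun s : ℝ => g (√(2 * s)) * cexp (2 * π * I * z * s))
  rw [himg] at h2
  rw [← h1, h2]
  unfold psi
  apply setIntegral_congr_fun measurableSet_Ioi
  intro r hr
  have hr' : 0 < r := hr
  have h3 : √(2 * (r ^ 2 / 2)) = r := by
    rw [mul_div_cancel₀ _ (two_ne_zero)]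
    exact Real.sqrt_sq hr'.le
  show |r| • (g (√(2 * (r ^ 2 / 2))) * cexp (2 * π * I * z * ((r ^ 2 / 2 : ℝ) : ℂ))) =
    g r * r * cexp (π * I * z * ((r ^ 2 : ℝ) : ℂ))
  rw [h3, abs_of_pos hr', Complex.real_smul]
  have h4 : (2 * π * I * z * ((r ^ 2 / 2 : ℝ) : ℂ)) = π * I * z * ((r ^ 2 : ℝ) : ℂ) := by
    push_cast; ring
  rw [h4]
  ring

theorem rpow_neg_two (x : ℝ) : |x| ^ (-(2 : ℝ)) = (x ^ 2)⁻¹ := by
  rw [Real.rpow_neg (abs_nonneg _), Real.rpow_two, sq_abs]

/-- the unimodular factor -/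
noncomputable def tw (a y : ℝ) : ℂ := cexp (-(π * I * a * y))

theorem norm_tw (a y : ℝ) : ‖tw a y‖ = 1 := by
  unfold tw
  rw [Complex.norm_exp]
  simp

theorem cov_shift (g : ℝ → ℂ) (h0 : g 0 = 0) (a z : ℝ) :
    ∫ s : ℝ, g (√(2 * s + a)) * cexp (2 * π * I * z * s) = tw a z * psi g z := by
  have h := integral_add_right_eq_self (μ := (volume : Measure ℝ))
    (fun s : ℝ => g (√(2 * s)) * cexp (2 * π * I * z * ((s - a / 2 : ℝ) : ℂ))) (a / 2)
  have e1 : ∀ s : ℝ, g (√(2 * (s + a / 2))) * cexp (2 * π * I * z * ((s + a / 2 - a / 2 : ℝ) : ℂ)) =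
      g (√(2 * s + a)) * cexp (2 * π * I * z * s) := by
    intro s
    congr 2
    · congr 1
      ring
    · congr 2
      ring
  have e2 : ∀ s : ℝ, g (√(2 * s)) * cexp (2 * π * I * z * ((s - a / 2 : ℝ) : ℂ)) =
      tw a z * (g (√(2 * s)) * cexp (2 * π * I * z * s)) := by
    intro s
    have : cexp (2 * π * I * z * ((s - a / 2 : ℝ) : ℂ)) =
        tw a z * cexp (2 * π * I * z * s) := by
      unfold tw
      rw [← Complex.exp_add]
      congr 1
      push_cast
      ring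
    rw [this]
    ring
  simp only [e1, e2] at h
  rw [h, integral_const_mul, cov g h0]

theorem poisson (g : ℝ → ℂ) (hc : Continuous g) (h0 : g 0 = 0) {C : ℝ}
    (hC : ∀ r, 0 < r → ‖g r‖ * r ^ 4 ≤ C) {C' : ℝ} (hC' : ∀ z : ℝ, ‖psi g z‖ * z ^ 2 ≤ C')
    (a : ℝ) (hn : ∀ n : ℤ, 0 < 2 * (n : ℝ) + a → g (√(2 * n + a)) = 0) (y : ℝ) :
    Summable (fun m : ℤ => tw a (y + m) * psi g (y + m)) ∧
      ∑' m : ℤ, tw a (y + m) * psi g (y + m) = 0 := by
  set h : ℝ → ℂ := fun s => g (√(2 * s + a)) * cexp (2 * π * I * y * s) with hh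
  have hFh : ∀ w : ℝ, 𝓕 h w = tw a (y - w) * psi g (y - w) := by
    intro w
    rw [Real.fourier_real_eq_integral_exp_smul, ← cov_shift g h0]
    congr 1
    funext s
    rw [hh, smul_eq_mul]
    simp only []
    rw [mul_comm, mul_assoc, ← Complex.exp_add]
    congr 2
    push_cast
    ring
  have hcont : Continuous h := by
    rw [hh]
    refine (hc.comp ?_).mul (by fun_prop)
    exact Real.continuous_sqrt.comp (by fun_prop)
  have hC0 : 0 ≤ C := le_trans (by positivity) (hC 1 one_pos)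
  have hlarge : ∀ K : ℝ, ∀ᶠ w : ℝ in cocompact ℝ, K ≤ |w| := by
    intro K
    have := (tendsto_norm_cocompact_atTop (E := ℝ)).eventually (eventually_ge_atTop K)
    simpa using this
  have hb1 : h =O[cocompact ℝ] (|·| ^ (-(2 : ℝ))) := by
    refine Asymptotics.IsBigO.of_bound C ?_
    filter_upwards [hlarge (|a| + 1)] with s hs
    have hnorm : ‖h s‖ = ‖g (√(2 * s + a))‖ := by
      rw [hh]
      simp only [norm_mul]
      rw [Complex.norm_exp]
      simp
    rw [hnorm, rpow_neg_two, Real.norm_eq_abs, abs_of_nonneg (by positivity)]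
    have ha := abs_nonneg a
    rcases le_or_gt (2 * s + a) 0 with hs0 | hs0
    · have : √(2 * s + a) = 0 := Real.sqrt_eq_zero_of_nonpos hs0
      rw [this, h0, norm_zero]
      positivity
    · have hr := Real.sqrt_pos.mpr hs0
      have h1 := hC _ hr
      have h2 : √(2 * s + a) ^ 4 = (2 * s + a) ^ 2 := by
        have : √(2 * s + a) ^ 4 = (√(2 * s + a) ^ 2) ^ 2 := by ring
        rw [this, Real.sq_sqrt hs0.le]
      rw [h2] at h1
      have hspos : 0 < s := by
        by_contra hneg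
        rw [not_lt] at hneg
        rw [abs_of_nonpos hneg] at hs
        have := neg_abs_le a
        have := le_abs_self a
        linarith
      rw [abs_of_pos hspos] at hs
      have h3 : s ≤ 2 * s + a := by
        have := neg_abs_le a
        linarith
      have h4 : s ^ 2 ≤ (2 * s + a) ^ 2 := pow_le_pow_left₀ hspos.le h3 2
      rw [← div_eq_mul_inv, le_div_iff₀ (by positivity)]
      have := norm_nonneg (g (√(2 * s + a)))
      nlinarith
  have hb2 : (𝓕 h) =O[cocompact ℝ] (|·| ^ (-(2 : ℝ))) := by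
    refine Asymptotics.IsBigO.of_bound (4 * C') ?_
    filter_upwards [hlarge (2 * |y| + 1)] with w hw
    rw [hFh, norm_mul, norm_tw, one_mul, rpow_neg_two, Real.norm_eq_abs,
      abs_of_nonneg (by positivity : 0 ≤ (w ^ 2)⁻¹)]
    have hy0 := abs_nonneg y
    have h1 : |w| / 2 ≤ |y - w| := by
      have := abs_sub_abs_le_abs_sub w y
      rw [abs_sub_comm w y] at this
      linarith
    have hw0 : 0 < |w| := by linarith
    have h2 : w ^ 2 / 4 ≤ (y - w) ^ 2 := by
      have h3 : (|w| / 2) ^ 2 ≤ |y - w| ^ 2 := pow_le_pow_left₀ (by positivity) h1 2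
      rw [sq_abs, div_pow, sq_abs] at h3
      linarith
    have hw2 : 0 < w ^ 2 := by
      have : w ≠ 0 := abs_pos.mp hw0
      positivity
    have h4 := hC' (y - w)
    rw [← div_eq_mul_inv, le_div_iff₀ hw2]
    have h5 := norm_nonneg (psi g (y - w))
    nlinarith
  have hzero : ∀ n : ℤ, h (0 + n) = 0 := by
    intro n
    rw [hh]
    simp only [zero_add]
    rcases le_or_gt (2 * (n : ℝ) + a) 0 with hn0 | hn0
    · have : √(2 * (n : ℝ) + a) = 0 := Real.sqrt_eq_zero_of_nonpos hn0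
      rw [this, h0, zero_mul]
    · rw [hn n hn0, zero_mul]
  have hP := Real.tsum_eq_tsum_fourier_of_rpow_decay hcont one_lt_two hb1 hb2 0
  simp only [hzero, tsum_zero] at hP
  have hsum : Summable (fun n : ℤ => 𝓕 h n) :=
    summable_of_isBigO (Real.summable_abs_int_rpow one_lt_two)
      (hb2.comp_tendsto Int.tendsto_coe_cofinite)
  have hre : ∀ m : ℤ, 𝓕 h ((-m : ℤ) : ℝ) = tw a (y + m) * psi g (y + m) := by
    intro m
    rw [hFh]
    have : y - ((-m : ℤ) : ℝ) = y + m := by push_cast; ring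
    rw [this]
  constructor
  · have h1 := (Equiv.neg ℤ).summable_iff.mpr hsum
    refine h1.congr fun m => ?_
    exact hre m
  · have h2 : ∑' n : ℤ, 𝓕 h n = 0 := by
      rw [hP]
      refine tsum_congr fun n => ?_
      simp
    rw [← (Equiv.neg ℤ).tsum_eq] at h2
    rw [← h2]
    exact tsum_congr fun m => (hre m).symm

/-! ### powers times Schwartz functions -/

theorem int_pow (F : 𝓢(ℝ, ℂ)) (k : ℕ) (z : ℝ) :
    Integrable (fun r : ℝ => F r * (r : ℂ) ^ k * cexp (π * I * z * ((r ^ 2 : ℝ) : ℂ))) := by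
  refine (F.integrable_pow_mul volume k).mono' ?_ (Eventually.of_forall fun r => ?_)
  · exact ((F.continuous.mul (by fun_prop)).mul (by fun_prop)).aestronglyMeasurable
  · rw [norm_mul, norm_e, mul_one, norm_mul, norm_pow, Complex.norm_real, mul_comm]

theorem tend_pow (F : 𝓢(ℝ, ℂ)) (k : ℕ) (z : ℝ) :
    Tendsto (fun r : ℝ => F r * (r : ℂ) ^ k * cexp (π * I * z * ((r ^ 2 : ℝ) : ℂ))) atTop
      (𝓝 0) := by
  obtain ⟨C, hC⟩ := F.decay (k + 1) 0
  rw [tendsto_zero_iff_norm_tendsto_zero]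
  have h1 : Tendsto (fun r : ℝ => C * r⁻¹) atTop (𝓝 0) := by
    simpa using tendsto_inv_atTop_zero.const_mul C
  refine squeeze_zero' (Eventually.of_forall fun r => norm_nonneg _) ?_ h1
  filter_upwards [eventually_gt_atTop (0 : ℝ)] with r hr
  rw [norm_mul, norm_e, mul_one, norm_mul, norm_pow, Complex.norm_real, Real.norm_eq_abs,
    abs_of_pos hr]
  have h2 := hC.2 r
  rw [norm_iteratedFDeriv_zero, Real.norm_eq_abs, abs_of_pos hr] at h2
  rw [← div_eq_mul_inv, le_div_iff₀ hr]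
  calc ‖F r‖ * r ^ k * r = r ^ (k + 1) * ‖F r‖ := by ring
    _ ≤ C := h2

/-- integration by parts -/
theorem ibp (F : 𝓢(ℝ, ℂ)) (n : ℕ) (z : ℝ) :
    psi (fun r => deriv F r * (r : ℂ) ^ (n + 1) + (n + 2) * (F r * (r : ℂ) ^ n)) z =
      -(2 * π * I * z) * psi (fun r => F r * (r : ℂ) ^ (n + 2)) z := by
  set F' : 𝓢(ℝ, ℂ) := SchwartzMap.derivCLM ℂ ℂ F with hF'
  have hF'a : ∀ r, F' r = deriv F r := fun r => rfl
  have hdF : ∀ r : ℝ, HasDerivAt (fun r : ℝ => F r) (F' r) r := by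
    intro r
    rw [hF'a]
    exact (F.differentiable r).hasDerivAt
  have key := integral_Ioi_mul_deriv_eq_deriv_mul (a := (0 : ℝ))
    (u := fun r : ℝ => F r * (r : ℂ) ^ (n + 2))
    (u' := fun r : ℝ => F' r * (r : ℂ) ^ (n + 2) + (n + 2) * (F r * (r : ℂ) ^ (n + 1)))
    (v := fun r : ℝ => cexp (π * I * z * ((r ^ 2 : ℝ) : ℂ)))
    (v' := fun r : ℝ => (2 * π * I * z * r) * cexp (π * I * z * ((r ^ 2 : ℝ) : ℂ)))
    (a' := 0) (b' := 0) (by
      intro r _
      have h1 : HasDerivAt (fun r : ℝ => (r : ℂ) ^ (n + 2)) ((n + 2) * (r : ℂ) ^ (n + 1)) r := by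
        have h0 : HasDerivAt (fun r : ℝ => (r : ℂ)) 1 r := Complex.ofRealCLM.hasDerivAt
        exact (h0.pow (n + 2)).congr_deriv (by push_cast; simp)
      exact ((hdF r).mul h1).congr_deriv (by ring)) (by
      intro r _
      have h1 : HasDerivAt (fun r : ℝ => π * I * z * ((r ^ 2 : ℝ) : ℂ)) (2 * π * I * z * r) r := by
        have h3 := ((hasDerivAt_pow 2 r).ofReal_comp).const_mul (π * I * z : ℂ)
        exact h3.congr_deriv (by push_cast; ring)
      exact h1.cexp.congr_deriv (by ring)) (by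
      have h1 := ((int_pow F (n + 3) z).const_mul (2 * π * I * z)).integrableOn (s := Ioi (0 : ℝ))
      refine h1.congr_fun (fun r _ => ?_) measurableSet_Ioi
      simp only [Pi.mul_apply]
      ring) (by
      have h1 := (int_pow F' (n + 2) z).integrableOn (s := Ioi (0 : ℝ))
      have h2 := ((int_pow F (n + 1) z).const_mul (n + 2)).integrableOn (s := Ioi (0 : ℝ))
      refine (h1.add h2).congr_fun (fun r _ => ?_) measurableSet_Ioi
      simp only [Pi.mul_apply, Pi.add_apply]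
      ring) (by
      have hc : Continuous (fun r : ℝ => F r * (r : ℂ) ^ (n + 2) *
          cexp (π * I * z * ((r ^ 2 : ℝ) : ℂ))) :=
        (F.continuous.mul (by fun_prop)).mul (by fun_prop)
      have h1 := (hc.tendsto 0).mono_left (nhdsWithin_le_nhds (s := Ioi (0 : ℝ)))
      simp only [Complex.ofReal_zero, ne_eq, Nat.add_eq_zero_iff, OfNat.ofNat_ne_zero, and_false,
        not_false_eq_true, zero_pow, mul_zero, zero_mul] at h1
      exact h1) (by
      exact tend_pow F (n + 2) z)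
  unfold psi
  have e1 : ∫ r in Ioi (0 : ℝ), (deriv F r * (r : ℂ) ^ (n + 1) + (n + 2) * (F r * (r : ℂ) ^ n)) * r *
      cexp (π * I * z * ((r ^ 2 : ℝ) : ℂ)) = ∫ r in Ioi (0 : ℝ),
      (F' r * (r : ℂ) ^ (n + 2) + (n + 2) * (F r * (r : ℂ) ^ (n + 1))) *
        cexp (π * I * z * ((r ^ 2 : ℝ) : ℂ)) := by
    refine setIntegral_congr_fun measurableSet_Ioi fun r _ => ?_
    simp only [hF'a]
    ring
  have e2 : ∫ r in Ioi (0 : ℝ), F r * (r : ℂ) ^ (n + 2) *
      ((2 * π * I * z * r) * cexp (π * I * z * ((r ^ 2 : ℝ) : ℂ))) =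
      (2 * π * I * z) * ∫ r in Ioi (0 : ℝ), F r * (r : ℂ) ^ (n + 2) * r *
        cexp (π * I * z * ((r ^ 2 : ℝ) : ℂ)) := by
    rw [← integral_const_mul]
    refine setIntegral_congr_fun measurableSet_Ioi fun r _ => ?_
    ring
  rw [e1]
  rw [e2] at key
  rw [neg_mul, key]
  ring

end Pool.Agent.L5helper93.FU
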